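import Pool.Agent.D0H24.NR.Scale

/-!
# Near relations of small exponent: the count
-/

set_option autoImplicit false

namespace Pool.Agent.D0H24.NR

open Real Filter Topology Pool.Agent.D0H49.LI

/-- the number of the vectors of one scale -/
theorem scale {θ : ℝ} (hθ : Msr θ) (t : ℝ) {w η : ℝ} (hw : 2 < w) (hw3 : w ≤ 3) (hη : 0 < η) :
    ∃ C H₀ : ℝ, 0 < C ∧ 1 ≤ H₀ ∧ ∀ H : ℝ, H₀ ≤ H →
      ((K θ t (2 ^ w * H ^ (-w)) H).ncard : ℝ) ≤ C * H ^ ((3 - w) / 2 + η) := by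
  obtain ⟨c, hc, h⟩ := hθ η hη
  -- thresholds
  have ev1 : ∀ᶠ H : ℝ in atTop, H ^ (-(w - 2)) < (6 * 2 ^ w)⁻¹ :=
    (tendsto_rpow_neg_atTop (by linarith : 0 < w - 2)).eventually_lt_const (by positivity)
  have ev2 : ∀ᶠ H : ℝ in atTop, H ^ (-(w - 1)) < (2 * 2 ^ w)⁻¹ :=
    (tendsto_rpow_neg_atTop (by linarith : 0 < w - 1)).eventually_lt_const (by positivity)
  obtain ⟨H₁, hH₁⟩ := eventually_atTop.1 (ev1.and ev2)
  set C1 : ℝ := 2 ^ (1 + η) * (2 * 2 ^ w) / c with hC1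
  have hC10 : 0 < C1 := by positivity
  set C2 : ℝ := max 1 C1 with hC2
  have hC21 : 1 ≤ C2 := le_max_left _ _
  refine ⟨9 * C2, max 1 H₁, by positivity, le_max_left _ _, fun H hH => ?_⟩
  have hH1 : 1 ≤ H := (le_max_left _ _).trans hH
  have hH0 : 0 < H := by linarith
  obtain ⟨e1, e2⟩ := hH₁ H ((le_max_right _ _).trans hH)
  set κ : ℝ := 2 ^ w * H ^ (-w) with hκ
  have hκ0 : 0 < κ := by positivity
  have k1 : 6 * H ^ 2 * κ < 1 := by
    have i1 : H ^ 2 * H ^ (-w) = H ^ (-(w - 2)) := by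
      rw [← Real.rpow_natCast, ← Real.rpow_add hH0]
      congr 1
      push_cast
      ring
    calc 6 * H ^ 2 * κ = 6 * 2 ^ w * (H ^ 2 * H ^ (-w)) := by rw [hκ]; ring
      _ = 6 * 2 ^ w * H ^ (-(w - 2)) := by rw [i1]
      _ < 6 * 2 ^ w * (6 * 2 ^ w)⁻¹ := by gcongr
      _ = 1 := mul_inv_cancel₀ (by positivity)
  have i2 : H * κ = 2 ^ w * H ^ (-(w - 1)) := by
    have : H * H ^ (-w) = H ^ (-(w - 1)) := by
      nth_rewrite 1 [← Real.rpow_one H]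
      rw [← Real.rpow_add hH0]
      congr 1
      ring
    rw [hκ, ← this]; ring
  have k2 : 2 * (H * κ) < 1 := by
    calc 2 * (H * κ) = 2 * 2 ^ w * H ^ (-(w - 1)) := by rw [i2]; ring
      _ < 2 * 2 ^ w * (2 * 2 ^ w)⁻¹ := by gcongr
      _ = 1 := mul_inv_cancel₀ (by positivity)
  set β : ℝ := (3 - w) / 2 + η with hβ
  have hβ0 : 0 < β := by rw [hβ]; linarith
  have hHβ : 1 ≤ H ^ β := Real.one_le_rpow hH1 hβ0.le
  rcases card_K (θ := θ) (t := t) k1 k2 with h1 | ⟨p, q, g, hg, hq, b1, b2, b3, b4⟩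
  · have : ((K θ t κ H).ncard : ℝ) ≤ 1 := by exact_mod_cast h1
    nlinarith
  · have hgr : (0 : ℝ) < g := by exact_mod_cast hg
    have hg1 : (1 : ℝ) ≤ g := by exact_mod_cast hg
    -- bound for `g`
    set M : ℝ := 2 * H ^ 2 / g with hM
    have hp' : |(p : ℝ)| ≤ M := by
      rw [hM, le_div_iff₀ hgr]
      rw [abs_mul, abs_of_pos hgr] at b1
      linarith
    have hq' : |(q : ℝ)| ≤ M := by
      rw [hM, le_div_iff₀ hgr]
      rw [abs_mul, abs_of_pos hgr] at b2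
      linarith
    have hM1 : 1 ≤ M := (one_le_abs hq).trans hq'
    have h3 := h p q (fun hh => hq hh.2) M hM1 hp' hq'
    have h4 : g * |(p : ℝ) + q * θ| ≤ 2 * (H * κ) := by
      have : (g * p : ℝ) + g * q * θ = g * (p + q * θ) := by ring
      rw [this, abs_mul, abs_of_pos hgr] at b3
      exact b3
    have h5 : c * g ≤ M ^ (1 + η) * (2 * (H * κ)) := by
      calc c * g ≤ (M ^ (1 + η) * |(p : ℝ) + q * θ|) * g := by gcongr
        _ = M ^ (1 + η) * (g * |(p : ℝ) + q * θ|) := by ring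
        _ ≤ _ := by gcongr
    have h6 : (g : ℝ) ^ (2 + η) ≤ C1 * H ^ (3 - w + 2 * η) := by
      have j1 : M ^ (1 + η) = 2 ^ (1 + η) * H ^ (2 * (1 + η)) / (g : ℝ) ^ (1 + η) := by
        rw [hM, Real.div_rpow (by positivity) hgr.le, Real.mul_rpow (by norm_num) (by positivity),
          ← Real.rpow_natCast H 2, ← Real.rpow_mul hH0.le]
        norm_num
      have j2 : (g : ℝ) ^ (2 + η) = g * (g : ℝ) ^ (1 + η) := by
        rw [show (2 : ℝ) + η = 1 + (1 + η) by ring, Real.rpow_add hgr 1 (1 + η), Real.rpow_one]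
      have j3 : H ^ (2 * (1 + η)) * H ^ (-(w - 1)) = H ^ (3 - w + 2 * η) := by
        rw [← Real.rpow_add hH0]; congr 1; ring
      rw [j1, i2] at h5
      have hgp : (0 : ℝ) < (g : ℝ) ^ (1 + η) := by positivity
      have h7 : c * g * (g : ℝ) ^ (1 + η) ≤ 2 ^ (1 + η) * (2 * 2 ^ w) * H ^ (3 - w + 2 * η) := by
        calc c * g * (g : ℝ) ^ (1 + η)
            ≤ (2 ^ (1 + η) * H ^ (2 * (1 + η)) / (g : ℝ) ^ (1 + η) * (2 * (2 ^ w * H ^ (-(w - 1))))) *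
              (g : ℝ) ^ (1 + η) := by gcongr
          _ = 2 ^ (1 + η) * (2 * 2 ^ w) * (H ^ (2 * (1 + η)) * H ^ (-(w - 1))) := by
              field_simp
          _ = _ := by rw [j3]
      rw [j2, hC1, div_mul_eq_mul_div, le_div_iff₀ hc]
      linarith
    have h7 : (g : ℝ) ≤ C2 * H ^ β := by
      by_contra hcon
      push Not at hcon
      have l1 : (C2 * H ^ β) ^ (2 + η) < (g : ℝ) ^ (2 + η) :=
        Real.rpow_lt_rpow (by positivity) hcon (by linarith)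
      rw [Real.mul_rpow (by positivity) (by positivity), ← Real.rpow_mul hH0.le] at l1
      have l2 : H ^ (3 - w + 2 * η) ≤ H ^ (β * (2 + η)) := by
        apply Real.rpow_le_rpow_of_exponent_le hH1
        rw [hβ]
        nlinarith [mul_nonneg (sub_nonneg.2 hw3) hη.le]
      have l3 : C1 ≤ C2 ^ (2 + η) := by
        calc C1 ≤ C2 := le_max_right _ _
          _ = C2 ^ (1 : ℝ) := (Real.rpow_one _).symm
          _ ≤ C2 ^ (2 + η) := Real.rpow_le_rpow_of_exponent_le hC21 (by linarith)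
      have l4 : C1 * H ^ (3 - w + 2 * η) ≤ C2 ^ (2 + η) * H ^ (β * (2 + η)) := by gcongr
      linarith
    have h8 : ((K θ t κ H).ncard : ℝ) ≤ 3 * (2 * g + 1) := by exact_mod_cast b4
    calc ((K θ t κ H).ncard : ℝ) ≤ 3 * (2 * g + 1) := h8
      _ ≤ 9 * g := by linarith
      _ ≤ 9 * (C2 * H ^ β) := by gcongr
      _ = _ := by ring

/-- near relations of order `w` and height at most `Y` -/
def NS (θ t w Y : ℝ) : Set (ℤ × ℤ × ℤ) :=
  {x | Prim x ∧ |lf θ t x.1 x.2.1 x.2.2| ≤ ht x.1 x.2.1 x.2.2 ^ (-w) ∧ ht x.1 x.2.1 x.2.2 ≤ Y}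

lemma NS_finite (θ t w Y : ℝ) : (NS θ t w Y).Finite := by
  refine (Near_finite θ t w Y).subset ?_
  rintro x ⟨⟨h1, h2⟩, h3, h4⟩
  exact ⟨h1, h2, h3, h4⟩

lemma NS_step (θ t : ℝ) {w : ℝ} (hw : 0 < w) {H : ℝ} (hH : 0 < H) :
    ((NS θ t w H).ncard : ℝ) ≤ (NS θ t w (H / 2)).ncard + (K θ t (2 ^ w * H ^ (-w)) H).ncard := by
  have hsub : NS θ t w H ⊆ NS θ t w (H / 2) ∪ K θ t (2 ^ w * H ^ (-w)) H := by
    rintro x ⟨h1, h2, h3⟩
    by_cases h4 : ht x.1 x.2.1 x.2.2 ≤ H / 2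
    · exact Or.inl ⟨h1, h2, h4⟩
    · right
      push Not at h4
      refine ⟨h1, h3, h2.trans ?_⟩
      have h5 : ht x.1 x.2.1 x.2.2 ^ (-w) ≤ (H / 2) ^ (-w) :=
        Real.rpow_le_rpow_of_nonpos (by linarith) h4.le (by linarith)
      refine h5.trans (le_of_eq ?_)
      rw [Real.div_rpow hH.le (by norm_num), Real.rpow_neg (by norm_num : (0 : ℝ) ≤ 2)]
      field_simp
  have h1 := Set.ncard_le_ncard hsub ((NS_finite _ _ _ _).union (K_finite _ _ _ _))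
  have h2 := Set.ncard_union_le (NS θ t w (H / 2)) (K θ t (2 ^ w * H ^ (-w)) H)
  exact_mod_cast h1.trans h2

lemma NS_mono (θ t w : ℝ) {Y Y' : ℝ} (h : Y ≤ Y') :
    ((NS θ t w Y).ncard : ℝ) ≤ (NS θ t w Y').ncard := by
  have : NS θ t w Y ⊆ NS θ t w Y' := fun x hx => ⟨hx.1, hx.2.1, hx.2.2.trans h⟩
  exact_mod_cast Set.ncard_le_ncard this (NS_finite _ _ _ _)

/-- **The number of near relations of order `w`, `2 < w ≤ 3`.** -/
theorem count {θ : ℝ} (hθ : Msr θ) (t : ℝ) {w η : ℝ} (hw : 2 < w) (hw3 : w ≤ 3) (hη : 0 < η) :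
    ∃ C : ℝ, 0 < C ∧ ∀ Y : ℝ, 1 ≤ Y → ((NS θ t w Y).ncard : ℝ) ≤ C * Y ^ ((3 - w) / 2 + η) := by
  obtain ⟨C1, H₀, hC1, hH₀, h⟩ := scale hθ t hw hw3 hη
  set β : ℝ := (3 - w) / 2 + η with hβ
  have hβ0 : 0 < β := by rw [hβ]; linarith
  have h2β : 1 < (2 : ℝ) ^ β := Real.one_lt_rpow (by norm_num) hβ0
  -- constants
  set C0 : ℝ := ((NS θ t w H₀).ncard : ℝ) with hC0
  set C : ℝ := C0 + C1 * 2 ^ β / (2 ^ β - 1) + 1 with hC
  have hC00 : 0 ≤ C0 := Nat.cast_nonneg _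
  have hfr : 0 ≤ C1 * 2 ^ β / (2 ^ β - 1) := by
    apply div_nonneg (by positivity) (by linarith)
  have hCpos : 0 < C := by rw [hC]; linarith
  have hCstep : C1 * 2 ^ β ≤ C * (2 ^ β - 1) := by
    have : C1 * 2 ^ β = C1 * 2 ^ β / (2 ^ β - 1) * (2 ^ β - 1) := by
      field_simp
      rw [div_self (by linarith : (2 : ℝ) ^ β - 1 ≠ 0)]
    rw [this]
    apply mul_le_mul_of_nonneg_right _ (by linarith)
    rw [hC]; linarith
  -- powers of two times `H₀`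
  have key : ∀ n : ℕ, ((NS θ t w (H₀ * 2 ^ n)).ncard : ℝ) ≤ C * (H₀ * 2 ^ n) ^ β := by
    intro n
    induction n with
    | zero =>
      rw [pow_zero, mul_one]
      have : 1 ≤ H₀ ^ β := Real.one_le_rpow hH₀ hβ0.le
      calc ((NS θ t w H₀).ncard : ℝ) = C0 := rfl
        _ ≤ C := by rw [hC]; linarith
        _ ≤ C * H₀ ^ β := by nlinarith
    | succ n ih =>
      have hpos : 0 < H₀ * 2 ^ (n + 1) := by positivity
      have h1 := NS_step θ t (w := w) (by linarith) hpos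
      have h2 : H₀ * 2 ^ (n + 1) / 2 = H₀ * 2 ^ n := by rw [pow_succ]; ring
      rw [h2] at h1
      have h3 := h (H₀ * 2 ^ (n + 1)) (by
        have : (1 : ℝ) ≤ 2 ^ (n + 1) := one_le_pow₀ (by norm_num)
        nlinarith)
      have h4 : (H₀ * 2 ^ (n + 1)) ^ β = 2 ^ β * (H₀ * 2 ^ n) ^ β := by
        rw [← Real.mul_rpow (by norm_num) (by positivity)]
        congr 1
        rw [pow_succ]; ring
      have h5 : (0 : ℝ) < (H₀ * 2 ^ n) ^ β := by positivity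
      rw [h4] at h3 ⊢
      calc ((NS θ t w (H₀ * 2 ^ (n + 1))).ncard : ℝ)
          ≤ C * (H₀ * 2 ^ n) ^ β + C1 * (2 ^ β * (H₀ * 2 ^ n) ^ β) := h1.trans (add_le_add ih h3)
        _ = (C + C1 * 2 ^ β) * (H₀ * 2 ^ n) ^ β := by ring
        _ ≤ (C * 2 ^ β) * (H₀ * 2 ^ n) ^ β := by
            apply mul_le_mul_of_nonneg_right _ h5.le
            linarith
        _ = _ := by ring
  refine ⟨C * (H₀ * 2) ^ β, by positivity, fun Y hY => ?_⟩
  have hY0 : 0 < Y := by linarith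
  -- the scale of `Y`
  obtain ⟨n, hn1, hn2⟩ := exists_nat_pow_near hY (by norm_num : (1 : ℝ) < 2)
  have h1 : Y ≤ H₀ * 2 ^ (n + 1) := by
    have : (0 : ℝ) < 2 ^ (n + 1) := by positivity
    nlinarith
  refine (NS_mono θ t w h1).trans ((key (n + 1)).trans ?_)
  rw [mul_assoc, ← Real.mul_rpow (by positivity) hY0.le]
  apply mul_le_mul_of_nonneg_left _ hCpos.le
  apply Real.rpow_le_rpow (by positivity) _ hβ0.le
  rw [pow_succ]
  nlinarith

end Pool.Agent.D0H24.NR
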