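import Pool.Agent.D0H49.LI.Sparse

/-!
# Near relations of small exponent: the vectors of one scale

`θ` is a real number whose linear forms `a + b θ` are not small (`Msr θ`), `t` is any real number.
-/

set_option autoImplicit false

namespace Pool.Agent.D0H24.NR

open Real Pool.Agent.D0H49.LI

/-- primitive vectors with positive last coordinate -/
def Prim (x : ℤ × ℤ × ℤ) : Prop :=
  0 < x.2.2 ∧ ∀ d : ℤ, d ∣ x.1 → d ∣ x.2.1 → d ∣ x.2.2 → IsUnit d

/-- the primitive vectors of height at most `H` at which the linear form is at most `κ` -/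
def K (θ t κ H : ℝ) : Set (ℤ × ℤ × ℤ) :=
  {x | Prim x ∧ ht x.1 x.2.1 x.2.2 ≤ H ∧ |lf θ t x.1 x.2.1 x.2.2| ≤ κ}

def qq (x y : ℤ × ℤ × ℤ) : ℤ := y.2.2 * x.2.1 - x.2.2 * y.2.1
def pp (x y : ℤ × ℤ × ℤ) : ℤ := y.2.2 * x.1 - x.2.2 * y.1

lemma abs_prod_sub {H : ℝ} {p q r s : ℝ} (hp : |p| ≤ H) (hq : |q| ≤ H) (hr : |r| ≤ H)
    (hs : |s| ≤ H) : |p * q - r * s| ≤ 2 * H ^ 2 := by
  have hH : 0 ≤ H := (abs_nonneg _).trans hp
  have e1 : |p * q - r * s| ≤ |p * q| + |r * s| := abs_sub _ _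
  rw [abs_mul, abs_mul] at e1
  have e2 : |p| * |q| ≤ H * H := mul_le_mul hp hq (abs_nonneg _) hH
  have e3 : |r| * |s| ≤ H * H := mul_le_mul hr hs (abs_nonneg _) hH
  nlinarith

lemma le_H {θ t κ H : ℝ} {x : ℤ × ℤ × ℤ} (hx : x ∈ K θ t κ H) :
    |(x.1 : ℝ)| ≤ H ∧ |(x.2.1 : ℝ)| ≤ H ∧ |(x.2.2 : ℝ)| ≤ H :=
  ⟨(le_ht_a _ _ _).trans hx.2.1, (le_ht_b _ _ _).trans hx.2.1, (le_ht_c _ _ _).trans hx.2.1⟩

lemma qq_le {θ t κ H : ℝ} {x y : ℤ × ℤ × ℤ} (hx : x ∈ K θ t κ H) (hy : y ∈ K θ t κ H) :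
    |(qq x y : ℝ)| ≤ 2 * H ^ 2 := by
  obtain ⟨h1, h2, h3⟩ := le_H hx
  obtain ⟨h1', h2', h3'⟩ := le_H hy
  unfold qq
  push_cast
  exact abs_prod_sub h3' h2 h3 h2'

lemma pp_le {θ t κ H : ℝ} {x y : ℤ × ℤ × ℤ} (hx : x ∈ K θ t κ H) (hy : y ∈ K θ t κ H) :
    |(pp x y : ℝ)| ≤ 2 * H ^ 2 := by
  obtain ⟨h1, h2, h3⟩ := le_H hx
  obtain ⟨h1', h2', h3'⟩ := le_H hy
  unfold pp
  push_cast
  exact abs_prod_sub h3' h1 h3 h1'

lemma form_le {θ t κ H : ℝ} {x y : ℤ × ℤ × ℤ} (hx : x ∈ K θ t κ H) (hy : y ∈ K θ t κ H) :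
    |(pp x y : ℝ) + qq x y * θ| ≤ 2 * (H * κ) := by
  obtain ⟨h1, h2, h3⟩ := le_H hx
  obtain ⟨h1', h2', h3'⟩ := le_H hy
  have hH : 0 ≤ H := (abs_nonneg _).trans h1
  have e : (pp x y : ℝ) + qq x y * θ =
      y.2.2 * lf θ t x.1 x.2.1 x.2.2 - x.2.2 * lf θ t y.1 y.2.1 y.2.2 := by
    unfold pp qq lf
    push_cast
    ring
  rw [e]
  have e1 := abs_sub ((y.2.2 : ℝ) * lf θ t x.1 x.2.1 x.2.2) (x.2.2 * lf θ t y.1 y.2.1 y.2.2)
  rw [abs_mul, abs_mul] at e1
  have e2 : |(y.2.2 : ℝ)| * |lf θ t x.1 x.2.1 x.2.2| ≤ H * κ := mul_le_mul h3' hx.2.2 (abs_nonneg _) hH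
  have e3 : |(x.2.2 : ℝ)| * |lf θ t y.1 y.2.1 y.2.2| ≤ H * κ := mul_le_mul h3 hy.2.2 (abs_nonneg _) hH
  linarith

/-- the determinant of three vectors -/
def dt (x y z : ℤ × ℤ × ℤ) : ℤ :=
  x.1 * (y.2.1 * z.2.2 - y.2.2 * z.2.1) + y.1 * (z.2.1 * x.2.2 - z.2.2 * x.2.1) +
    z.1 * (x.2.1 * y.2.2 - x.2.2 * y.2.1)

lemma dt_zero {θ t κ H : ℝ} (hκ : 6 * H ^ 2 * κ < 1) {x y z : ℤ × ℤ × ℤ} (hx : x ∈ K θ t κ H)
    (hy : y ∈ K θ t κ H) (hz : z ∈ K θ t κ H) : dt x y z = 0 := by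
  have hκ0 : 0 ≤ κ := (abs_nonneg _).trans hx.2.2
  have e : (dt x y z : ℝ) = lf θ t x.1 x.2.1 x.2.2 * (y.2.1 * z.2.2 - y.2.2 * z.2.1) +
      lf θ t y.1 y.2.1 y.2.2 * (z.2.1 * x.2.2 - z.2.2 * x.2.1) +
      lf θ t z.1 z.2.1 z.2.2 * (x.2.1 * y.2.2 - x.2.2 * y.2.1) := by
    unfold dt lf
    push_cast
    ring
  obtain ⟨x1, x2, x3⟩ := le_H hx
  obtain ⟨y1, y2, y3⟩ := le_H hy
  obtain ⟨z1, z2, z3⟩ := le_H hz
  have b : ∀ {u v : ℝ}, |u| ≤ κ → |v| ≤ 2 * H ^ 2 → |u * v| ≤ κ * (2 * H ^ 2) := by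
    intro u v hu hv
    rw [abs_mul]
    exact mul_le_mul hu hv (abs_nonneg _) hκ0
  have e1 := b hx.2.2 (abs_prod_sub y2 z3 y3 z2)
  have e2 := b hy.2.2 (abs_prod_sub z2 x3 z3 x2)
  have e3 := b hz.2.2 (abs_prod_sub x2 y3 x3 y2)
  have h4 : |(dt x y z : ℝ)| < 1 := by
    rw [e]
    refine lt_of_le_of_lt (abs_add_le _ _) ?_
    refine lt_of_le_of_lt (add_le_add (abs_add_le _ _) le_rfl) ?_
    nlinarith
  have h5 : |dt x y z| < 1 := by exact_mod_cast h4
  exact Int.abs_lt_one_iff.1 h5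

lemma dt_eq (s x y : ℤ × ℤ × ℤ) : pp s y * qq x y - qq s y * pp x y = y.2.2 * dt s x y := by
  unfold pp qq dt
  ring

/-- vectors with vanishing minors are equal -/
lemma eq_of_pq {x y : ℤ × ℤ × ℤ} (hx : Prim x) (hy : Prim y) (hq : qq x y = 0) (hp : pp x y = 0) :
    x = y := by
  obtain ⟨a, b, c⟩ := x
  obtain ⟨a', b', c'⟩ := y
  unfold qq at hq
  unfold pp at hp
  simp only at hp hq
  have hc : 0 < c := hx.1
  have hc' : 0 < c' := hy.1
  have hab : a * b' = a' * b := by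
    have h1 : c * c' * (a * b' - a' * b) = 0 := by
      have e1 : c' * a = c * a' := by linarith
      have e2 : c' * b = c * b' := by linarith
      calc c * c' * (a * b' - a' * b) = (c' * a) * (c * b') - (c * a') * (c' * b) := by ring
        _ = 0 := by rw [e1, e2]; ring
    rcases mul_eq_zero.1 h1 with h2 | h2
    · exact absurd h2 (by positivity)
    · linarith
  obtain ⟨h1, h2, h3⟩ := eq_of_prop3 (a := a) (b := b) (c := c) (a' := a') (b' := b') (c' := c')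
    ⟨hab, by linarith, by linarith⟩ hc hc' hx.2 hy.2
  simp only [h1, h2, h3]

lemma K_finite (θ t κ H : ℝ) : (K θ t κ H).Finite := by
  have h : (Set.Icc (-⌈H⌉) ⌈H⌉ ×ˢ (Set.Icc (-⌈H⌉) ⌈H⌉ ×ˢ Set.Icc (-⌈H⌉) ⌈H⌉) :
      Set (ℤ × ℤ × ℤ)).Finite :=
    (Set.finite_Icc _ _).prod ((Set.finite_Icc _ _).prod (Set.finite_Icc _ _))
  refine h.subset ?_
  intro x hx
  obtain ⟨h1, h2, h3⟩ := le_H hx
  have key : ∀ z : ℤ, |(z : ℝ)| ≤ H → z ∈ Set.Icc (-⌈H⌉) ⌈H⌉ := by
    intro z hz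
    have h1 := abs_le.1 hz
    have h2 := Int.le_ceil H
    constructor
    · have : -((⌈H⌉ : ℤ) : ℝ) ≤ z := by linarith
      exact_mod_cast this
    · have : (z : ℝ) ≤ ((⌈H⌉ : ℤ) : ℝ) := by linarith
      exact_mod_cast this
  exact ⟨key _ h1, key _ h2, key _ h3⟩

/-- a multiple of a primitive vector -/
lemma mult_of {y : ℤ × ℤ × ℤ} (hy : Prim y) {a b c : ℤ} (h1 : y.2.2 * a = c * y.1)
    (h2 : y.2.2 * b = c * y.2.1) : ∃ k : ℤ, a = k * y.1 ∧ b = k * y.2.1 ∧ c = k * y.2.2 := by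
  obtain ⟨a', b', c'⟩ := y
  simp only at h1 h2 ⊢
  have hc' : 0 < c' := hy.1
  -- `c' ∣ c`
  have hdvd : c' ∣ c := by
    set g : ℤ := (Int.gcd c c' : ℤ) with hg
    have hg0 : g ≠ 0 := by
      rw [hg]
      intro h
      have h3 : Int.gcd c c' = 0 := by exact_mod_cast h
      rw [Int.gcd_eq_zero_iff] at h3
      omega
    obtain ⟨u, hu⟩ : g ∣ c := hg ▸ Int.gcd_dvd_left ..
    obtain ⟨u', hu'⟩ : g ∣ c' := hg ▸ Int.gcd_dvd_right ..
    have hcop : IsCoprime u' u := by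
      have h5 := Int.gcd_eq_gcd_ab c c'
      rw [← hg] at h5
      refine ⟨Int.gcdB c c', Int.gcdA c c', ?_⟩
      apply mul_left_cancel₀ hg0
      rw [mul_one]
      have h7 : g * (Int.gcdB c c' * u' + Int.gcdA c c' * u) = (g * u) * Int.gcdA c c' + (g * u') * Int.gcdB c c' := by ring
      rw [h7, ← hu, ← hu']
      exact h5.symm
    have d1 : u' ∣ a' := by
      have : u' ∣ u * a' := by
        refine ⟨a, ?_⟩
        apply mul_left_cancel₀ hg0
        calc g * (u * a') = (g * u) * a' := by ring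
          _ = c * a' := by rw [← hu]
          _ = c' * a := h1.symm
          _ = (g * u') * a := by rw [← hu']
          _ = g * (u' * a) := by ring
      exact hcop.dvd_of_dvd_mul_left this
    have d2 : u' ∣ b' := by
      have : u' ∣ u * b' := by
        refine ⟨b, ?_⟩
        apply mul_left_cancel₀ hg0
        calc g * (u * b') = (g * u) * b' := by ring
          _ = c * b' := by rw [← hu]
          _ = c' * b := h2.symm
          _ = (g * u') * b := by rw [← hu']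
          _ = g * (u' * b) := by ring
      exact hcop.dvd_of_dvd_mul_left this
    have d3 : u' ∣ c' := ⟨g, by rw [hu']; ring⟩
    have h6 : IsUnit u' := hy.2 u' d1 d2 d3
    rcases Int.isUnit_iff.1 h6 with h7 | h7
    · rw [hu', h7, mul_one]; exact ⟨u, hu⟩
    · rw [hu', h7]
      exact ⟨-u, by rw [hu]; ring⟩
  obtain ⟨k, hk⟩ := hdvd
  refine ⟨k, ?_, ?_, by rw [hk]; ring⟩
  · apply mul_left_cancel₀ hc'.ne'
    rw [h1, hk]; ring
  · apply mul_left_cancel₀ hc'.ne'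
    rw [h2, hk]; ring

/-- **The number of the vectors of one scale.** -/
theorem card_K {θ t κ H : ℝ} (hκ : 6 * H ^ 2 * κ < 1) (hκ' : 2 * (H * κ) < 1) :
    ((K θ t κ H).ncard ≤ 1) ∨ ∃ p q g : ℤ, 0 < g ∧ q ≠ 0 ∧ |(g * p : ℝ)| ≤ 2 * H ^ 2 ∧
      |(g * q : ℝ)| ≤ 2 * H ^ 2 ∧ |(g * p : ℝ) + g * q * θ| ≤ 2 * (H * κ) ∧
      ((K θ t κ H).ncard : ℤ) ≤ 3 * (2 * g + 1) := by
  classical
  by_cases hK1 : (K θ t κ H).ncard ≤ 1
  · exact Or.inl hK1
  right
  push Not at hK1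
  -- two different vectors
  have : Finite (K θ t κ H) := (K_finite θ t κ H).to_subtype
  obtain ⟨x0, hx0, y0, hy0, hxy⟩ := Set.one_lt_ncard_iff_nontrivial.1 hK1
  have key0 : ∀ x ∈ K θ t κ H, ∀ y ∈ K θ t κ H, qq x y = 0 → x = y := by
    intro x hx y hy h
    refine eq_of_pq hx.1 hy.1 h ?_
    have h1 := form_le hx hy
    rw [h] at h1
    simp only [Int.cast_zero, zero_mul, add_zero] at h1
    have h2 : |(pp x y : ℝ)| < 1 := lt_of_le_of_lt h1 hκ'
    have h3 : |pp x y| < 1 := by exact_mod_cast h2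
    exact Int.abs_lt_one_iff.1 h3
  -- maximal pair
  set F : Finset ((ℤ × ℤ × ℤ) × (ℤ × ℤ × ℤ)) :=
    (K_finite θ t κ H).toFinset ×ˢ (K_finite θ t κ H).toFinset with hF
  have hFne : F.Nonempty := ⟨(x0, y0), by simp [hF, hx0, hy0]⟩
  obtain ⟨⟨x, y⟩, hxyF, hmax⟩ := F.exists_max_image (fun z => |qq z.1 z.2|) hFne
  have hx : x ∈ K θ t κ H := by
    have := (Finset.mem_product.1 hxyF).1
    simpa using this
  have hy : y ∈ K θ t κ H := by
    have := (Finset.mem_product.1 hxyF).2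
    simpa using this
  have hmax' : ∀ u ∈ K θ t κ H, ∀ v ∈ K θ t κ H, |qq u v| ≤ |qq x y| := by
    intro u hu v hv
    exact hmax (u, v) (by simp [hF, hu, hv])
  have hQ0 : qq x y ≠ 0 := by
    intro h
    have h1 := hmax' x0 hx0 y0 hy0
    rw [h, abs_zero] at h1
    exact hxy (key0 x0 hx0 y0 hy0 (abs_nonpos_iff.1 h1))
  set g : ℤ := (Int.gcd (pp x y) (qq x y) : ℤ) with hg
  have hg0 : 0 < g := by
    rw [hg]
    have : Int.gcd (pp x y) (qq x y) ≠ 0 := by
      intro h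
      rw [Int.gcd_eq_zero_iff] at h
      exact hQ0 h.2
    exact_mod_cast Nat.pos_of_ne_zero this
  obtain ⟨p, hp⟩ : g ∣ pp x y := hg ▸ Int.gcd_dvd_left ..
  obtain ⟨q, hq⟩ : g ∣ qq x y := hg ▸ Int.gcd_dvd_right ..
  have hq0 : q ≠ 0 := by
    rintro rfl
    exact hQ0 (by rw [hq]; ring)
  have hcop : IsCoprime q p := by
    have h5 := Int.gcd_eq_gcd_ab (pp x y) (qq x y)
    rw [← hg] at h5
    refine ⟨Int.gcdB (pp x y) (qq x y), Int.gcdA (pp x y) (qq x y), ?_⟩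
    apply mul_left_cancel₀ hg0.ne'
    rw [mul_one]
    calc g * (Int.gcdB (pp x y) (qq x y) * q + Int.gcdA (pp x y) (qq x y) * p)
        = (g * p) * Int.gcdA (pp x y) (qq x y) + (g * q) * Int.gcdB (pp x y) (qq x y) := by ring
      _ = g := by rw [← hp, ← hq]; exact h5.symm
  refine ⟨p, q, g, hg0, hq0, ?_, ?_, ?_, ?_⟩
  · have := pp_le hx hy
    rw [hp] at this
    exact_mod_cast this
  · have := qq_le hx hy
    rw [hq] at this
    exact_mod_cast this
  · have := form_le hx hy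
    rw [hp, hq] at this
    push_cast at this
    exact this
  · -- the minors `(pp s y, qq s y)` are multiples of `(p, q)`
    have hmul : ∀ s ∈ K θ t κ H, pp s y * q = qq s y * p ∧ q ∣ qq s y := by
      intro s hs
      have h1 := dt_eq s x y
      rw [dt_zero hκ hs hx hy, mul_zero] at h1
      have h2 : pp s y * q = qq s y * p := by
        apply mul_left_cancel₀ hg0.ne'
        rw [hp, hq] at h1
        linarith
      refine ⟨h2, ?_⟩
      have h3 : q ∣ p * qq s y := ⟨pp s y, by linarith⟩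
      exact hcop.dvd_of_dvd_mul_left h3
    set f : ℤ × ℤ × ℤ → ℤ × ℤ := fun s => (qq s y / q, qq x s / |qq x y|) with hf
    have hmaps : ∀ s ∈ (K_finite θ t κ H).toFinset, f s ∈ Finset.Icc (-g) g ×ˢ Finset.Icc (-1 : ℤ) 1 := by
      intro s hs
      have hs' : s ∈ K θ t κ H := by simpa using hs
      rw [Finset.mem_product, Finset.mem_Icc, Finset.mem_Icc]
      obtain ⟨m, hm⟩ := (hmul s hs').2
      have h1 := hmax' s hs' y hy
      have h2 := hmax' x hx s hs'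
      constructor
      · simp only [hf]
        rw [hm, Int.mul_ediv_cancel_left _ hq0]
        rw [hm, hq, abs_mul, abs_mul, abs_of_pos hg0, mul_comm g] at h1
        have h3 : |m| ≤ g := le_of_mul_le_mul_left h1 (abs_pos.2 hq0)
        exact abs_le.1 h3
      · simp only [hf]
        have hpos : 0 < |qq x y| := abs_pos.2 hQ0
        have h4 := abs_le.1 h2
        constructor
        · rw [Int.le_ediv_iff_mul_le hpos]
          linarith
        · have : qq x s / |qq x y| < 2 := by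
            rw [Int.ediv_lt_iff_lt_mul hpos]
            linarith
          omega
    have hinj : Set.InjOn f (K_finite θ t κ H).toFinset := by
      intro s hs s' hs' hss
      have hs1 : s ∈ K θ t κ H := by simpa using hs
      have hs1' : s' ∈ K θ t κ H := by simpa using hs'
      simp only [hf, Prod.mk.injEq] at hss
      obtain ⟨e1, e2⟩ := hss
      obtain ⟨m1, hm1⟩ := hmul s hs1
      obtain ⟨m1', hm1'⟩ := hmul s' hs1'
      have e3 : qq s y = qq s' y := by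
        rw [← Int.mul_ediv_cancel' hm1, ← Int.mul_ediv_cancel' hm1', e1]
      have e4 : pp s y = pp s' y := by
        apply mul_right_cancel₀ hq0
        rw [m1, m1', e3]
      -- the difference is a multiple of `y`
      obtain ⟨k, k1, k2, k3⟩ := mult_of hy.1 (a := s.1 - s'.1) (b := s.2.1 - s'.2.1)
        (c := s.2.2 - s'.2.2) (by unfold pp at e4; linarith) (by unfold qq at e3; linarith)
      have e5 : qq x s - qq x s' = k * qq x y := by
        unfold qq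
        have f1 : s.2.1 = s'.2.1 + k * y.2.1 := by linarith
        have f2 : s.2.2 = s'.2.2 + k * y.2.2 := by linarith
        rw [f1, f2]
        ring
      have hpos : 0 < |qq x y| := abs_pos.2 hQ0
      have e6 : |qq x s - qq x s'| < |qq x y| := by
        have g1 := Int.emod_add_mul_ediv (qq x s) |qq x y|
        have g2 := Int.emod_add_mul_ediv (qq x s') |qq x y|
        have g3 := Int.emod_nonneg (qq x s) hpos.ne'
        have g4 := Int.emod_nonneg (qq x s') hpos.ne'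
        have g5 := Int.emod_lt_of_pos (qq x s) hpos
        have g6 := Int.emod_lt_of_pos (qq x s') hpos
        rw [e2] at g1
        rw [abs_lt]
        constructor <;> linarith
      have hk : k = 0 := by
        by_contra hk0
        rw [e5, abs_mul] at e6
        have : 1 ≤ |k| := Int.one_le_abs hk0
        nlinarith
      rw [hk] at k1 k2 k3
      refine Prod.ext (by linarith) (Prod.ext (by linarith) (by linarith))
    have hcard := Finset.card_le_card_of_injOn f hmaps hinj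
    rw [Set.ncard_eq_toFinset_card _ (K_finite θ t κ H)]
    rw [Finset.card_product, Int.card_Icc, Int.card_Icc] at hcard
    have : ((K_finite θ t κ H).toFinset.card : ℤ) ≤ (((g + 1 - -g).toNat * (1 + 1 - -1 : ℤ).toNat : ℕ) : ℤ) := by
      exact_mod_cast hcard
    refine this.trans ?_
    push_cast
    rw [Int.toNat_of_nonneg (by linarith)]
    norm_num
    linarith

end Pool.Agent.D0H24.NR
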